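import Mathlib
import Pool.Agent.V8H32.Cos.Fin1

/-!
# Large central values on almost all cosets of every subgroup of size at least `c q^ε`

For all `ε, c₁ > 0` there are `c > 0` and `q₀` such that for all primes `q ≥ q₀` and all subgroups
`H` of the group of characters modulo `q` with `#H ≥ c₁ q^ε`, all but at most
`exp (-c log q / log log q) [X : H]` of the cosets `C` of `H` have the following property: for every
`χ` in `C` there is `χ'` in `C` of the same parity with
`|L(χ', 1/2)| > exp (c √(log q / log log q))`.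
-/

set_option autoImplicit false

namespace Pool.Agent.Results.MP_3e6494_nt.AlmostAllCosets

open Pool.Agent.V8H32.Cos Pool.Agent.R311.RES Filter

/-- `log q / log log q`, the square of `𝓛` -/
noncomputable def LL (q : ℕ) : ℝ := Real.log q / Real.log (Real.log q)

/-- the coset `C` of `H` has, for every `χ` in `C`, a character `χ'` in `C` of the same parity as `χ`
with `|L(χ', 1/2)| > exp (c √(log q / log log q))` -/
def Large (q : ℕ) [Fact q.Prime] (H : Subgroup (DirichletCharacter ℂ q)) (c : ℝ)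
    (C : DirichletCharacter ℂ q ⧸ H) : Prop :=
  ∀ χ : DirichletCharacter ℂ q, (χ : DirichletCharacter ℂ q ⧸ H) = C →
    ∃ χ' : DirichletCharacter ℂ q, (χ' : DirichletCharacter ℂ q ⧸ H) = C ∧ χ' (-1) = χ (-1) ∧
      Real.exp (c * Real.sqrt (LL q)) < ‖χ'.LFunction (1 / 2)‖

theorem result : ∀ ε : ℝ, 0 < ε → ∀ c₁ : ℝ, 0 < c₁ → ∃ c : ℝ, 0 < c ∧ ∃ q₀ : ℕ,
    ∀ (q : ℕ) [Fact q.Prime], q₀ ≤ q → ∀ H : Subgroup (DirichletCharacter ℂ q),
      c₁ * (q : ℝ) ^ ε ≤ Nat.card H →
      (Nat.card {C : DirichletCharacter ℂ q ⧸ H // ¬ Large q H c C} : ℝ) ≤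
          Real.exp (-(c * LL q)) * H.index ∧
        ((H.index : ℝ) < Real.exp (c * LL q) →
          ∀ C : DirichletCharacter ℂ q ⧸ H, Large q H c C) := by
  classical
  intro ε hε c₁ hc₁
  set ε₁ : ℝ := min ε 1 with hε₁
  have hε₁0 : 0 < ε₁ := lt_min hε one_pos
  have hε₁1 : ε₁ ≤ 1 := min_le_right _ _
  have hε₁e : ε₁ ≤ ε := min_le_left _ _
  obtain ⟨c, hc, q₁, hq₁⟩ := count_bad (ε₁ / 2) (by positivity) (by linarith)
  -- thresholds
  have hev1 : ∀ᶠ q : ℕ in atTop, 2 / c₁ ≤ (q : ℝ) ^ (ε₁ / 2) :=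
    ((tendsto_rpow_atTop (by positivity : 0 < ε₁ / 2)).comp
      (tendsto_natCast_atTop_atTop (R := ℝ))).eventually_ge_atTop (2 / c₁)
  have hev2 : ∀ᶠ q : ℕ in atTop, (2 / c) * Real.log (Real.log q) ≤ Real.log q :=
    tendsto_log_nat.eventually (ev_log_le (2 / c) (by positivity))
  have hev3 : ∀ᶠ q : ℕ in atTop, 3 ≤ Real.log (q : ℝ) := tendsto_log_nat.eventually_ge_atTop 3
  obtain ⟨q₂, hq₂⟩ := eventually_atTop.1 (hev1.and (hev2.and hev3))
  refine ⟨c / 2, by positivity, max q₁ q₂, fun q _ hq H hH => ?_⟩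
  obtain ⟨g1, g2, g3⟩ := hq₂ q ((le_max_right _ _).trans hq)
  have hq1 := hq₁ q ((le_max_left _ _).trans hq)
  have hqn : 1 < q := (Fact.out : q.Prime).one_lt
  have hq0 : (0 : ℝ) < q := by exact_mod_cast (by omega : 0 < q)
  have hq1' : (1 : ℝ) ≤ q := by exact_mod_cast hqn.le
  set Λ := Real.log (q : ℝ) with hΛ
  have hΛ0 : 0 < Λ := by linarith
  have hlΛ : 0 < Real.log Λ := Real.log_pos (by linarith)
  have hLL : LL q = Λ / Real.log Λ := rfl
  have hLL0 : 0 < LL q := by rw [hLL]; positivity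
  have hu : 1 ≤ c / 2 * LL q := by
    rw [hLL, ← mul_div_assoc, le_div_iff₀ hlΛ, one_mul]
    have h1 : c / 2 * (2 / c * Real.log Λ) = Real.log Λ := by field_simp
    rw [← h1]
    exact mul_le_mul_of_nonneg_left g2 (by positivity)
  -- sizes
  have hHc : Nat.card H = Fintype.card H := Nat.card_eq_fintype_card
  rw [hHc] at hH
  have hHpos : 0 < Fintype.card (evp H) := Fintype.card_pos
  have hEv := card_even H
  have hEv' : (Fintype.card H : ℝ) ≤ 2 * Fintype.card (evp H) := by exact_mod_cast hEv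
  have hmul := card_mul (evp H)
  have hpow : (q : ℝ) ^ ε₁ ≤ (q : ℝ) ^ ε := Real.rpow_le_rpow_of_exponent_le hq1' hε₁e
  have hann : (Fintype.card (ann (evp H)) : ℝ) ≤ (q : ℝ) ^ (1 - ε₁ / 2) := by
    have h1 : c₁ * (q : ℝ) ^ ε₁ ≤ 2 * Fintype.card (evp H) :=
      (mul_le_mul_of_nonneg_left hpow hc₁.le).trans (hH.trans hEv')
    have h2 : (q : ℝ) ^ ε₁ = (q : ℝ) ^ (ε₁ / 2) * (q : ℝ) ^ (ε₁ / 2) := by
      rw [← Real.rpow_add hq0]; congr 1; ring
    have h3 : (q : ℝ) = (q : ℝ) ^ (ε₁ / 2) * (q : ℝ) ^ (1 - ε₁ / 2) := by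
      rw [← Real.rpow_add hq0]
      rw [show ε₁ / 2 + (1 - ε₁ / 2) = 1 by ring, Real.rpow_one]
    have hp0 : 0 < (q : ℝ) ^ (ε₁ / 2) := by positivity
    have h4 : 2 * (q : ℝ) ^ (ε₁ / 2) ≤ 2 * Fintype.card (evp H) := by
      rw [div_le_iff₀ hc₁] at g1
      calc 2 * (q : ℝ) ^ (ε₁ / 2) ≤ ((q : ℝ) ^ (ε₁ / 2) * c₁) * (q : ℝ) ^ (ε₁ / 2) :=
            mul_le_mul_of_nonneg_right g1 hp0.le
        _ = c₁ * (q : ℝ) ^ ε₁ := by rw [h2]; ring
        _ ≤ _ := h1
    have h5 : (q : ℝ) ^ (ε₁ / 2) * (Fintype.card (ann (evp H)) : ℝ) ≤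
        (q : ℝ) ^ (ε₁ / 2) * (q : ℝ) ^ (1 - ε₁ / 2) := by
      rw [← h3]
      calc (q : ℝ) ^ (ε₁ / 2) * (Fintype.card (ann (evp H)) : ℝ) ≤
          Fintype.card (evp H) * (Fintype.card (ann (evp H)) : ℝ) :=
            mul_le_mul_of_nonneg_right (by linarith) (by positivity)
        _ = q - 1 := hmul
        _ ≤ q := by linarith
    exact le_of_mul_le_mul_left h5 hp0
  have hcount := hq1 (evp H) hann
  -- passage to the cosets
  have hcos := coset_count H (Real.exp (c / 2 * Real.sqrt (LL q)))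
  have hmono : Real.exp (c / 2 * Real.sqrt (LL q)) ≤ Real.exp (c * Real.sqrt (LL q)) := by
    apply Real.exp_le_exp.2
    apply mul_le_mul_of_nonneg_right (by linarith) (Real.sqrt_nonneg _)
  have hsub : ((Finset.univ.filter (fun χ₀ : DirichletCharacter ℂ q => ∀ ψ : evp H,
      ‖DirichletCharacter.LFunction (χ₀ * (ψ : DirichletCharacter ℂ q)) (1 / 2)‖ ≤
        Real.exp (c / 2 * Real.sqrt (LL q)))).card : ℝ) ≤ (q - 1) * Real.exp (-(c * LL q)) := by
    refine le_trans ?_ hcount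
    exact_mod_cast Finset.card_le_card (fun χ₀ h => by
      rw [Finset.mem_filter] at h ⊢
      exact ⟨h.1, fun ψ => (h.2 ψ).trans hmono⟩)
  have hset : Nat.card {C : DirichletCharacter ℂ q ⧸ H // ¬ Large q H (c / 2) C} =
      Nat.card {C : DirichletCharacter ℂ q ⧸ H // ∃ χ : DirichletCharacter ℂ q,
      (χ : DirichletCharacter ℂ q ⧸ H) = C ∧ ∀ χ' : DirichletCharacter ℂ q,
        (χ' : DirichletCharacter ℂ q ⧸ H) = C → χ' (-1) = χ (-1) →
          ‖DirichletCharacter.LFunction χ' (1 / 2)‖ ≤ Real.exp (c / 2 * Real.sqrt (LL q))} := by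
    apply Nat.card_congr
    apply Equiv.subtypeEquivRight
    intro C
    unfold Large
    push Not
    rfl
  have hindex : (Fintype.card H : ℝ) * H.index = q - 1 := by
    rw [← card_X (q := q)]
    have h1 := H.card_mul_index
    rw [Nat.card_eq_fintype_card, Nat.card_eq_fintype_card] at h1
    exact_mod_cast h1
  have hHpos' : (0 : ℝ) < Fintype.card (evp H) := by exact_mod_cast hHpos
  have hmain : (Nat.card {C : DirichletCharacter ℂ q ⧸ H // ¬ Large q H (c / 2) C} : ℝ) ≤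
      Real.exp (-(c / 2 * LL q)) * H.index := by
    rw [hset]
    set N := Nat.card {C : DirichletCharacter ℂ q ⧸ H // ∃ χ : DirichletCharacter ℂ q,
      (χ : DirichletCharacter ℂ q ⧸ H) = C ∧ ∀ χ' : DirichletCharacter ℂ q,
        (χ' : DirichletCharacter ℂ q ⧸ H) = C → χ' (-1) = χ (-1) →
          ‖DirichletCharacter.LFunction χ' (1 / 2)‖ ≤ Real.exp (c / 2 * Real.sqrt (LL q))} with hN
    have h1 : (N : ℝ) * Fintype.card (evp H) ≤ (q - 1) * Real.exp (-(c * LL q)) := by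
      refine le_trans ?_ hsub
      exact_mod_cast hcos
    have h2 : (2 : ℝ) * Real.exp (-(c * LL q)) ≤ Real.exp (-(c / 2 * LL q)) := by
      have h3 : (2 : ℝ) ≤ Real.exp 1 := by have := Real.exp_one_gt_d9; linarith
      calc (2 : ℝ) * Real.exp (-(c * LL q)) ≤ Real.exp 1 * Real.exp (-(c * LL q)) :=
            mul_le_mul_of_nonneg_right h3 (Real.exp_pos _).le
        _ = Real.exp (1 + -(c * LL q)) := by rw [← Real.exp_add]
        _ ≤ _ := by
            apply Real.exp_le_exp.2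
            linarith
    have h3 : (N : ℝ) * Fintype.card (evp H) ≤
        (Real.exp (-(c / 2 * LL q)) * H.index) * Fintype.card (evp H) := by
      calc (N : ℝ) * Fintype.card (evp H) ≤ (q - 1) * Real.exp (-(c * LL q)) := h1
        _ = (Fintype.card H * H.index) * Real.exp (-(c * LL q)) := by rw [hindex]
        _ ≤ ((2 * Fintype.card (evp H)) * H.index) * Real.exp (-(c * LL q)) := by
            apply mul_le_mul_of_nonneg_right _ (Real.exp_pos _).le
            exact mul_le_mul_of_nonneg_right hEv' (by positivity)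
        _ = (2 * Real.exp (-(c * LL q))) * (H.index * Fintype.card (evp H)) := by ring
        _ ≤ Real.exp (-(c / 2 * LL q)) * (H.index * Fintype.card (evp H)) :=
            mul_le_mul_of_nonneg_right h2 (by positivity)
        _ = _ := by ring
    exact le_of_mul_le_mul_right h3 hHpos'
  refine ⟨hmain, fun hlt C => ?_⟩
  by_contra hC
  have h1 : (1 : ℝ) ≤ (Nat.card {C : DirichletCharacter ℂ q ⧸ H // ¬ Large q H (c / 2) C} : ℝ) := by
    have : Nonempty {C : DirichletCharacter ℂ q ⧸ H // ¬ Large q H (c / 2) C} := ⟨⟨C, hC⟩⟩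
    have h2 : 0 < Nat.card {C : DirichletCharacter ℂ q ⧸ H // ¬ Large q H (c / 2) C} :=
      Nat.card_pos
    exact_mod_cast h2
  have h2 : Real.exp (-(c / 2 * LL q)) * H.index < 1 := by
    calc Real.exp (-(c / 2 * LL q)) * H.index < Real.exp (-(c / 2 * LL q)) * Real.exp (c / 2 * LL q) :=
          mul_lt_mul_of_pos_left hlt (Real.exp_pos _)
      _ = 1 := by rw [← Real.exp_add]; simp
  linarith

end Pool.Agent.Results.MP_3e6494_nt.AlmostAllCosets
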