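import Pool.Agent.V8H35.HB.E11

/-!
# Large central values in every subgroup of the characters of size `q^β`, `β > 5/11`

**Theorem.** Let `5/11 < β ≤ 3/5`, `c > 0` and `ε > 0`. For *all* sufficiently large primes `q`, every subgroup `H` of
the group of the Dirichlet characters modulo `q` with `#H ≥ c q^β` has a member `χ` with

  `|L(χ, 1/2)| ≥ exp ((√((11β - 5)/8) - ε) √(log q · log log log q / log log q))`.

The starting theorem `LargeSubgroups` of this problem has the range `β > 1/2`, with the constant `√(2β - 1)`. So the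
new range is `5/11 < β ≤ 1/2`, below the square root of the size of the whole group, and for `1/2 < β < 3/5` the
constant is larger than the known one.

What stops the resonance method at `#H = √q`: let `K ≤ (ℤ/q)ˣ` be the annihilator of `H`, a group with
`(q - 1)/#H` elements. The resonator leads to the sums of the Hurwitz zeta values `q^(-1/2) ζ(1/2, a/q)` over the
`a` in a coset `cK`. The main term comes from the small `a`; the trivial bound `O(#K q^(-1/2))` for the other `a`
is not small if `#K > √q`. Here we use that the cosets of `K` are equidistributed modulo `q`, with a quantitative bound: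
`|∑_{k ∈ K} e(ak/q)| ≤ 12 q^(1/4) (#K)^(3/8)` for `a ≢ 0` and `#K ≤ q^(3/5)` (Heath-Brown and Konyagin), and that
`∑_a q^(-1/2) ζ(1/2, a/q) = L(χ₀, 1/2)` for the principal character `χ₀` is bounded. The values with `a` below
`Y = q^((5β+5)/8 - o(1))` are dominated from below by the labels of the resonator, and the truncated function has the total
variation `O(Y^(-1/2))`, so that its sum over `cK` is its mean value up to `O(Y^(-1/2) q^(1/4) (#K)^(3/8) log q)`. Both
errors are `q^(-(11β-5)/16 + o(1))`.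

The bound of Heath-Brown and Konyagin follows from `E(K) ≤ 16387 (#K)^(5/2)` for the additive energy of `K`, by
Stepanov's method for several cosets; the starting files `Pool.Agent.H435R3.HBK` have the case of one coset, which we
extend (`Pool.Agent.V8H35.HB.E1`-`E5`). The resonator is that of the starting engine `Pool.Agent.R311.RES`.
-/

set_option autoImplicit false

namespace Pool.Agent.Results.MP_3e6494_nt.BelowSquareRoot

open Finset Filter Topology
open scoped Classical
open Pool.Agent.R311.RES (FF ann card_mul)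
open Pool.Agent.V8H35.HB

/-- **Large central values in every subgroup of size at least `c q^β`, `β > 5/11`.** -/
theorem result : ∀ β : ℝ, 5 / 11 < β → β ≤ 3 / 5 → ∀ c : ℝ, 0 < c → ∀ ε : ℝ, 0 < ε →
    ∃ q₀ : ℕ, ∀ (q : ℕ) [NeZero q], q₀ ≤ q → q.Prime →
      ∀ H : Subgroup (DirichletCharacter ℂ q), c * (q : ℝ) ^ β ≤ (Nat.card H : ℝ) →
        ∃ χ ∈ H, Real.exp ((Real.sqrt ((11 * β - 5) / 8) - ε) *
          Real.sqrt (Real.log q * Real.log (Real.log (Real.log q)) / Real.log (Real.log q))) ≤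
            ‖DirichletCharacter.LFunction χ (1 / 2)‖ := by
  intro β hβ hβ1 c hc ε hε
  obtain ⟨a, ha⟩ : ∃ a : ℝ, a = (11 * β - 5) / 8 := ⟨_, rfl⟩
  rw [← ha]
  have ha0 : 0 < a := by linarith
  have ha1 : a ≤ 1 / 5 := by linarith
  have hsa : 0 < Real.sqrt a := Real.sqrt_pos.2 ha0
  set ε₁ : ℝ := min ε (Real.sqrt a) with hε₁
  have hε₁0 : 0 < ε₁ := lt_min hε hsa
  have hε₁ε : ε₁ ≤ ε := min_le_left _ _
  have hε₁a : ε₁ ≤ Real.sqrt a := min_le_right _ _
  obtain ⟨ν, hν⟩ : ∃ ν : ℝ, ν = min (a / 2) ((ε₁ / 4) ^ 2) / 6 := ⟨_, rfl⟩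
  have hν0 : 0 < ν := by
    rw [hν]
    have : 0 < min (a / 2) ((ε₁ / 4) ^ 2) := lt_min (by positivity) (by positivity)
    positivity
  have hνa : 6 * ν ≤ a / 2 := by
    rw [hν]
    have := min_le_left (a / 2) ((ε₁ / 4) ^ 2)
    linarith
  have hνε : 6 * ν ≤ (ε₁ / 4) ^ 2 := by
    rw [hν]
    have := min_le_right (a / 2) ((ε₁ / 4) ^ 2)
    linarith
  have hν1 : ν ≤ 1 / 10 := by linarith
  obtain ⟨δ, hδ⟩ : ∃ δ : ℝ, δ = (11 * β - 5) / 16 - 3 * ν := ⟨_, rfl⟩
  have hδ0 : 0 < δ := by linarith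
  have hsd : Real.sqrt a - ε₁ / 4 ≤ Real.sqrt (2 * δ) := by
    have h1 : Real.sqrt a ≤ Real.sqrt (2 * δ) + Real.sqrt (6 * ν) := by
      rw [Real.sqrt_le_left (by positivity)]
      have h2 := Real.sq_sqrt (show 0 ≤ 2 * δ by positivity)
      have h3 := Real.sq_sqrt (show 0 ≤ 6 * ν by positivity)
      have h4 : 0 ≤ Real.sqrt (2 * δ) * Real.sqrt (6 * ν) := by positivity
      nlinarith
    have h5 : Real.sqrt (6 * ν) ≤ ε₁ / 4 := by
      rw [Real.sqrt_le_left (by positivity)]
      exact hνε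
    linarith
  have hsd1 : Real.sqrt (2 * δ) ≤ 1 := by
    rw [Real.sqrt_le_left (by norm_num)]
    linarith
  set h : ℝ := min (1 / 100) (ε₁ / 40) with hh
  have hh0 : 0 < h := lt_min (by norm_num) (by positivity)
  have hh1 : h ≤ 1 / 100 := min_le_left _ _
  have hhε : h ≤ ε₁ / 40 := min_le_right _ _
  obtain ⟨X0, hX0⟩ := coreY hh0 hh1 hδ0 (8 / ε₁)
  have t1 : Tendsto (fun q : ℕ => Real.log (q : ℝ)) atTop atTop :=
    Real.tendsto_log_atTop.comp tendsto_natCast_atTop_atTop
  obtain ⟨q₀, hq₀⟩ := eventually_atTop.1 ((t1.eventually_ge_atTop X0).and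
    (t1.eventually (ev_FG (c := c) 20000 hβ hν0 hν1)))
  refine ⟨q₀, fun q _ hqq hq H hH => ?_⟩
  have : Fact q.Prime := ⟨hq⟩
  obtain ⟨b1, FG⟩ := hq₀ q hqq
  obtain ⟨d1, d2⟩ := hX0 q b1
  have hqp : (0 : ℝ) < q := by exact_mod_cast hq.pos
  have hqx : (q : ℝ) = Real.exp (Real.log q) := (Real.exp_log hqp).symm
  have hK : (Fintype.card (ann H) : ℝ) ≤ Real.exp ((1 - β) * Real.log q) * (1 / c) := by
    have h1 := card_mul H
    rw [Nat.card_eq_fintype_card] at hH
    have h2 : c * (q : ℝ) ^ β * (Fintype.card (ann H) : ℝ) ≤ q := by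
      calc c * (q : ℝ) ^ β * (Fintype.card (ann H) : ℝ) ≤
          (Fintype.card H : ℝ) * (Fintype.card (ann H) : ℝ) :=
            mul_le_mul_of_nonneg_right hH (Nat.cast_nonneg _)
        _ = q - 1 := h1
        _ ≤ q := by linarith
    have h3 : (q : ℝ) ^ β = Real.exp (β * Real.log q) := by
      rw [Real.rpow_def_of_pos hqp, mul_comm]
    rw [mul_one_div, le_div_iff₀ hc]
    have h4 : (0 : ℝ) < (q : ℝ) ^ β := by positivity
    have h5 : (Fintype.card (ann H) : ℝ) * c * (q : ℝ) ^ β ≤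
        Real.exp ((1 - β) * Real.log q) * (q : ℝ) ^ β := by
      calc (Fintype.card (ann H) : ℝ) * c * (q : ℝ) ^ β = c * (q : ℝ) ^ β * (Fintype.card (ann H) : ℝ) := by
            ring
        _ ≤ q := h2
        _ = _ := by
            rw [h3, ← Real.exp_add]
            nth_rewrite 1 [hqx]
            congr 1
            ring
    exact le_of_mul_le_mul_right h5 h4
  obtain ⟨e1, e2, e3, e4⟩ := err_le FG rfl hc hβ hβ1 hν0 hν1 (Nat.cast_nonneg _) hK rfl rfl
  have hS := SS_sup (ann H) 1 FG rfl hc hβ hβ1 hK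
  have hT := T_lower (ann H) hS e1 e2
  rw [← hδ] at e4
  set F : ℝ := FF (Real.log q) with hF
  have hFdef : Real.sqrt (Real.log q * Real.log (Real.log (Real.log q)) / Real.log (Real.log q)) = F :=
    rfl
  rw [hFdef]
  have hF0 : 0 < F := lt_of_lt_of_le (by positivity) d1
  by_contra hcon
  push Not at hcon
  have hV : ∀ χ ∈ H, ‖DirichletCharacter.LFunction χ (1 / 2)‖ ≤ Real.exp ((Real.sqrt a - ε₁) * F) := by
    intro χ hχ
    refine (hcon χ hχ).le.trans ?_
    rw [Real.exp_le_exp]
    apply mul_le_mul_of_nonneg_right _ hF0.le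
    linarith
  have hlog : 0 ≤ Real.log q := by linarith [FG.hx]
  have h1 := d2 H _ _ e2 e3 (by positivity) e4 hT _ hV
  have h2 : Real.exp ((Real.sqrt a - ε₁ / 2) * F) ≤ 2 * Real.exp ((Real.sqrt a - ε₁) * F) + 2 := by
    refine le_trans ?_ h1
    rw [Real.exp_le_exp]
    apply mul_le_mul_of_nonneg_right _ hF0.le
    nlinarith [Real.sqrt_nonneg (2 * δ)]
  have h3 : Real.exp ((Real.sqrt a - ε₁ / 2) * F) =
      Real.exp ((Real.sqrt a - ε₁) * F) * Real.exp (ε₁ / 2 * F) := by
    rw [← Real.exp_add]; congr 1; ring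
  have h4 := Real.add_one_le_exp (ε₁ / 2 * F)
  have h5 : 1 ≤ Real.exp ((Real.sqrt a - ε₁) * F) := by
    apply Real.one_le_exp
    apply mul_nonneg (by linarith) hF0.le
  have h6 : 8 ≤ ε₁ * F := by
    rw [div_le_iff₀ hε₁0] at d1
    linarith
  rw [h3] at h2
  nlinarith

end Pool.Agent.Results.MP_3e6494_nt.BelowSquareRoot
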