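import Pool.Agent.V8H35.EC.R5
import Pool.Agent.R311.RES.C14

/-!
# Many large central values in every coset of every subgroup of index `q^(δ logloglog q / (loglog q)^2)`

**Theorem.** Let `0 < θ ≤ 1/3` and `ε > 0`. There is a `δ > 0` such that for *all* large primes `q`, for *all* subgroups
`H` of the group of the Dirichlet characters modulo `q` of index at most
`exp (δ log q logloglog q / (loglog q)^2)`, and for *all* cosets `χ₀ H`: at least `q^(1 - 2 θ)` of the characters
`χ ∈ χ₀ H` satisfy `|L(χ, 1/2)| ≥ exp ((√θ - ε) √(log q / loglog q))`. In particular (`θ = 1/3`) the maximum over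
every such coset is at least `exp ((1/√3 - ε) √(log q / loglog q))`, and at least `q^(1/3)` members of the coset have such
large values.

So the bound `exp ((1/√3 - o(1)) √(log q / loglog q))`, which was known for subgroups of index
`exp (o(√(log q / loglog q)))`, and by the starting theorem `AllCosets` for the cosets of subgroups of index at most
`exp (δ √(log q logloglog q / loglog q))`, holds for the cosets of subgroups whose index is almost a power of `q`.

The difficulty is that for all primes `q` and all cosets one can not exclude that many primes `p` are in the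
annihilator `K ≤ (ℤ/q)ˣ` of `H`, or in few cosets of `K`; then `χ(p)` is the same number `χ₀(p)` for all `χ` in the
coset, and the resonator is not in resonance. More generally every multiplicative relation
`s ≡ k t (mod q)`, `k ∈ K`, between short products of primes makes a contribution of unknown sign.

Idea. The starting theorem uses a maximal family of disjoint short relations, of which there are at most
`log₂ #K`; this is good for `log #K` up to about `√(log q)`. Here the *number* of the relations is estimated, by
an entropy argument. Call a finite set `B` of primes good if the number `N_B(r)` of the relations of size `≤ r`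
(`log (s t) ≤ r`) supported by `B` is at least `exp (max (c #B, r/μ))` for some `r`. Products of relations with disjoint
supports are different modulo `q`, hence different elements of `K`: so a maximal good set `B` has at most
`log #K / c` elements, a number for which the Euler factors at the primes of `B` are not important. Outside of `B` all
sets `U` of primes have `N_U(r) < exp (max (c #U, r/μ))`. If one colours the primes with two colours and considers
only relations with numerator of the first and denominator of the second colour (which costs a factor `2` for each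
prime), then there are no cancellations in the products of relations; a relation `v` of size `≤ 2 r` is the
product of two relations of size `≤ r` in at most `N_{supp v}(r)` ways, and so the number of the relations of size
`≤ r` outside of `B` is almost supermultiplicative in `r`. As there are at most `#K` relations of size `(log q)/8`, there
are so few relations of any size that the sum of the weights of all of them is at most `1/4`.

That there are many large values follows with the mean square of `L(χ, 1/2)`, because the resonators of length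
`q^θ` are at most `q^θ` times larger than on average.
-/

set_option autoImplicit false

namespace Pool.Agent.Results.MP_3e6494_nt.ManyInEveryCoset

open Finset Filter Topology
open scoped Classical
open Pool.Agent.R311.RES (card_ann_index ann)

/-- **Many large central values in every coset of every subgroup of index almost a power of `q`.** -/
theorem result : ∀ θ : ℝ, 0 < θ → θ ≤ 1 / 3 → ∀ ε : ℝ, 0 < ε → ∃ δ : ℝ, 0 < δ ∧ ∃ q₀ : ℕ,
    ∀ (q : ℕ) [NeZero q], q₀ ≤ q → q.Prime →
      ∀ (H : Subgroup (DirichletCharacter ℂ q)) (χ₀ : DirichletCharacter ℂ q),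
        (H.index : ℝ) ≤ Real.exp (δ * (Real.log q * Real.log (Real.log (Real.log q)) /
          Real.log (Real.log q) ^ 2)) →
        (q : ℝ) ^ (1 - 2 * θ) ≤ (Set.ncard {ψ : DirichletCharacter ℂ q | ψ ∈ H ∧
          Real.exp ((Real.sqrt θ - ε) * Real.sqrt (Real.log q / Real.log (Real.log q))) ≤
            ‖DirichletCharacter.LFunction (χ₀ * ψ) (1 / 2)‖} : ℝ) := by
  intro θ hθ0 hθ1 ε hε
  have hsθ : 0 < Real.sqrt θ := Real.sqrt_pos.2 hθ0
  set e : ℝ := min (ε * Real.sqrt θ / 20) (min (θ / 5) (1 / 40)) with he
  set f : ℝ := min (ε / 8) 1 with hf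
  have he0 : 0 < e := lt_min (by positivity) (lt_min (by positivity) (by norm_num))
  have hf0 : 0 < f := lt_min (by positivity) (by norm_num)
  have he1 : e ≤ 1 / 40 := (min_le_right _ _).trans (min_le_right _ _)
  have heθ : e ≤ θ / 5 := (min_le_right _ _).trans (min_le_left _ _)
  have heε : e ≤ ε * Real.sqrt θ / 20 := min_le_left _ _
  have hf1 : f ≤ 1 := min_le_right _ _
  have hfε : f ≤ ε / 8 := min_le_left _ _
  have hCe : 5 / Real.sqrt θ * e ≤ ε / 4 := by
    calc 5 / Real.sqrt θ * e ≤ 5 / Real.sqrt θ * (ε * Real.sqrt θ / 20) :=
          mul_le_mul_of_nonneg_left heε (by positivity)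
      _ = ε / 4 := by field_simp; norm_num
  obtain ⟨d, hd, X0, hX0⟩ := Pool.Agent.V8H35.EC.core' θ e f hθ0 hθ1 (by linarith) he0
    (by linarith) hf0 hf1
  have t1 : Tendsto (fun q : ℕ => Real.log (q : ℝ)) atTop atTop :=
    Real.tendsto_log_atTop.comp tendsto_natCast_atTop_atTop
  obtain ⟨q₀, hq₀⟩ := eventually_atTop.1 (t1.eventually_ge_atTop X0)
  refine ⟨d, hd, q₀, fun q _ hqq hq H χ₀ hH => ?_⟩
  have hFact : Fact q.Prime := ⟨hq⟩
  have hqp : (0 : ℝ) < q := by exact_mod_cast hq.pos
  obtain ⟨h4, hmain⟩ := hX0 q (hq₀ q hqq)
  set G : ℝ := Real.sqrt (Real.log q / Real.log (Real.log q)) with hG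
  have hG0 : 0 ≤ G := Real.sqrt_nonneg _
  by_contra hcon
  push Not at hcon
  set V : ℝ := Real.exp ((Real.sqrt θ - ε) * G) with hV
  set S : Set (DirichletCharacter ℂ q) := {ψ : DirichletCharacter ℂ q | ψ ∈ H ∧
    V ≤ ‖DirichletCharacter.LFunction (χ₀ * ψ) (1 / 2)‖} with hS
  set A : Finset H := univ.filter (fun ψ : H =>
    V ≤ ‖DirichletCharacter.LFunction (χ₀ * (ψ : DirichletCharacter ℂ q)) (1 / 2)‖) with hA
  have hcard : A.card ≤ S.ncard := by
    have h1 : (A.map ⟨Subtype.val, Subtype.val_injective⟩ : Finset (DirichletCharacter ℂ q)).card =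
        A.card := card_map _
    rw [← h1, ← Set.ncard_coe_finset]
    apply Set.ncard_le_ncard _ (Set.toFinite _)
    intro ψ hψ
    rw [mem_coe, Finset.mem_map] at hψ
    obtain ⟨φ, hφ, rfl⟩ := hψ
    rw [hA, mem_filter] at hφ
    exact ⟨φ.2, hφ.2⟩
  have hA2 : (A.card : ℝ) ≤ Real.exp ((1 - 2 * θ) * Real.log q) := by
    have h1 : (q : ℝ) ^ (1 - 2 * θ) = Real.exp ((1 - 2 * θ) * Real.log q) := by
      rw [Real.rpow_def_of_pos hqp, mul_comm]
    rw [← h1]
    exact (show (A.card : ℝ) ≤ (S.ncard : ℝ) by exact_mod_cast hcard).trans hcon.le
  have h1 := hmain H χ₀ V A (by rw [card_ann_index]; exact hH) (Real.exp_pos _).le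
    (fun ψ hψ => by
      rw [hA, mem_filter, not_and] at hψ
      exact (lt_of_not_ge (hψ (mem_univ _))).le) hA2
  have h2 : (10 : ℝ) < Real.exp (f * G) := by
    have h3 : Real.exp 4 ≤ Real.exp (f * G) := Real.exp_le_exp.2 h4
    have h5 : (2 : ℝ) ≤ Real.exp 1 := by have := Real.add_one_le_exp (1 : ℝ); linarith
    have h6 : Real.exp 4 = Real.exp 1 ^ 4 := by rw [← Real.exp_nat_mul]; norm_num
    have h7 : (2 : ℝ) ^ 4 ≤ Real.exp 1 ^ 4 := pow_le_pow_left₀ (by norm_num) h5 4
    norm_num at h7
    linarith
  have h3 : 10 * (V * Real.exp (f * G)) < Real.exp (f * G) * (V * Real.exp (f * G)) :=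
    mul_lt_mul_of_pos_right h2 (mul_pos (Real.exp_pos _) (Real.exp_pos _))
  have h5 : Real.exp (f * G) * (V * Real.exp (f * G)) =
      Real.exp ((Real.sqrt θ - ε + 2 * f) * G) := by
    rw [hV, ← Real.exp_add, ← Real.exp_add]; congr 1; ring
  rw [h5] at h3
  have h6 := Real.exp_lt_exp.1 (lt_of_le_of_lt h1 h3)
  have h7 : (Real.sqrt θ - ε + 2 * f) * G ≤ (Real.sqrt θ - 5 / Real.sqrt θ * e) * G :=
    mul_le_mul_of_nonneg_right (by linarith) hG0
  linarith

end Pool.Agent.Results.MP_3e6494_nt.ManyInEveryCoset
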