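import Pool.Agent.V8H35.NV.N10

/-!
# Central values in all cosets of the subgroups of power index

**Theorem.** Let `m ≥ 2` be an integer, `0 < κ < 1/(2m)` and `ε > 0`. For *all* sufficiently large primes `q`, for
*all* subgroups `H` of the group of the Dirichlet characters modulo `q` with index at most `q^κ`, and for *all* cosets
`χ₀ H`: at least `q^(-ε) #H` of the members `χ` of the coset satisfy

  `|L(χ, 1/2)| ≥ exp (- (log q)^(A + ε))`, `A = 1 / (2 - 1/m - 2κ)`.

Here `A < 1` for all `κ < 1/(2m)`, so the bound is nontrivial for all `κ < 1/4` (with `m = 2`, `A = 1/(3/2 - 2κ)`), and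
`A` is close to `1/2` if `m` is large and `κ` is small.

What was known: the starting theorem `MP_347b49_nt.ThinSubgroups` (of this repository) has, for subgroups with
`#H ≥ q^(2/3 + δ)` and for all their cosets, at least `q^(-ε) #H` members with `|L(χ, 1/2)| ≥ q^(-ε)`. The new part is the
lower bound `exp (- (log q)^(A + ε))`, which is larger than every negative power of `q`, with the same
number of members.

For the subgroup `H` itself (the coset of the trivial character) the resonance method gives large values, because all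
the multiplicative relations modulo the annihilator `K ≤ (ℤ/q)ˣ` of `H` contribute with the positive sign.
For a coset the signs are the values of `χ₀`, and for all primes `q` it can not be excluded that `K`, a group with
up to `q^κ` elements, contains all the small primes up to `(log q)^(1/(1-κ))`; if `χ₀(p) = -1` for those primes, then the
Euler factors of `L(χ, s)` at these primes have the same small product `exp (- c (log q)^(1/(2-2κ) - o(1)))` for all
`χ` in the coset. So the exponent `1/(2 - 2κ)` is the natural limit of an argument which does not use more about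
`q`; here the exponent is `1/(2 - 2κ - 1/m)`.

Idea. The first moment of `L(χ, 1/2) M(χ)` over the coset, with the mollifier `M(χ) = ∑ μ(d) χ(d) d^(-1/2)` over the `d ≤ D`
composed of the primes of a set `B`, where `D` is a small power of `q`. The moment is `#H` times
`1 + ∑ χ₀(n) g(n) n^(-1/2)` over the integers `1 < n < q` with `n mod q` in `K`, where `g(n) = ∑_{d ∣ n} μ(d)`, up to small
errors. For `n ≤ D` only the integers free of primes of `B` remain. The integers `n > D` have a small sum, as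
products of integers in `K` are in `K`. For the short part, free of the primes of `B`: by an entropy argument there
is a set `B'` of at most `(log q)^(1 + c + o(1))` primes such that every set `U` of few primes outside `B'`
supports at most `exp (κ (1 + o(1)) r)` integers `≤ exp r` in `K`, for all `r` up to a small multiple of `log q`
(disjoint rich sets would give more than `#K` different elements of `K`); then the products of `j ≤ (log q)^c` elements have
few representations, and `m - 1` steps of this form, and a last step with the trivial bound for the number of the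
representations, bound the number of the integers of each size in `K` free of `B'` and of the primes up to
`(log q)^(1 + c)`. The cost of the mollifier is `exp (O((log q)^((1 + c)/2 + o(1))))`. The number of the members of the coset
with a large value follows with the mean square of `L(χ, 1/2)` over the coset, from the starting theorem
`Pool.Agent.Y766.coset_final`.
-/

set_option autoImplicit false

namespace Pool.Agent.Results.MP_3e6494_nt.PowerIndexCosets

open Finset Filter Topology
open scoped Classical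
open Pool.Agent.R311.RES (card_ann_index ann)
open Pool.Agent.V8H35.NV

/-- **Central values in all cosets of the subgroups of index at most `q^κ`.** -/
theorem result : ∀ (m : ℕ) (κ : ℝ), 2 ≤ m → 0 < κ → κ < 1 / (2 * m) → ∀ ε : ℝ, 0 < ε → ∃ q₀ : ℕ,
    ∀ (q : ℕ) [NeZero q], q₀ ≤ q → q.Prime →
      ∀ (H : Subgroup (DirichletCharacter ℂ q)) (χ₀ : DirichletCharacter ℂ q),
        (H.index : ℝ) ≤ (q : ℝ) ^ κ →
        (q : ℝ) ^ (-ε) * (Nat.card H : ℝ) ≤ (Set.ncard {ψ : DirichletCharacter ℂ q | ψ ∈ H ∧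
          Real.exp (-(Real.log q) ^ (1 / (2 - 1 / (m : ℝ) - 2 * κ) + ε)) ≤
            ‖DirichletCharacter.LFunction (χ₀ * ψ) (1 / 2)‖} : ℝ) := by
  intro m κ hm hκ hκm ε hε
  have hm0 : (2 : ℝ) ≤ m := by exact_mod_cast hm
  have hmκ : m * κ < 1 / 2 := by
    rw [lt_div_iff₀ (by positivity)] at hκm
    linarith
  have hκ4 : κ < 1 / 4 := by nlinarith
  have hκ1 : κ < 1 / 3 := by linarith
  -- the parameters
  obtain ⟨β, hβ⟩ : ∃ β : ℝ, β = 1 / 2 - m * κ := ⟨_, rfl⟩
  have hβ0 : 0 < β := by linarith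
  have hβ1 : β < 1 / 2 := by nlinarith
  obtain ⟨c₁, hc₁⟩ : ∃ c₁ : ℝ, c₁ = (1 - β) / (m - 1 + β) := ⟨_, rfl⟩
  have hden : 0 < (m : ℝ) - 1 + β := by linarith
  have hc₁0 : 0 < c₁ := by rw [hc₁]; exact div_pos (by linarith) hden
  obtain ⟨c, hc⟩ : ∃ c : ℝ, c = c₁ + ε := ⟨_, rfl⟩
  have hc0 : 0 < c := by linarith
  have hA : (1 + c) / 2 = 1 / (2 - 1 / (m : ℝ) - 2 * κ) + ε / 2 := by
    have hm1 : (m : ℝ) ≠ 0 := by positivity
    have e1 : 2 - 1 / (m : ℝ) - 2 * κ = 2 * (m - 1 + β) / m := by
      rw [hβ]; field_simp; ring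
    have e2 : 1 + c₁ = m / (m - 1 + β) := by
      rw [hc₁]; field_simp; ring
    rw [e1, hc, ← add_assoc, e2]
    field_simp
    try ring
  have hkey : 1 - ((m : ℝ) - 1) * c < β * (1 + c) := by
    have h1 : c₁ * (m - 1 + β) = 1 - β := by rw [hc₁]; field_simp
    have h2 : 0 < ε * (m - 1 + β) := by positivity
    rw [hc]
    nlinarith
  obtain ⟨a, ha1, ha2⟩ : ∃ a : ℝ, max 0 ((1 - ((m : ℝ) - 1) * c) / (1 + c)) < a ∧ a < β :=
    exists_between (max_lt hβ0 (by rw [div_lt_iff₀ (by linarith)]; exact hkey))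
  have ha0 : 0 < a := lt_of_le_of_lt (le_max_left _ _) ha1
  have ha3 : 1 - ((m : ℝ) - 1) * c < a * (1 + c) := by
    have := lt_of_le_of_lt (le_max_right _ _) ha1
    rwa [div_lt_iff₀ (by linarith)] at this
  obtain ⟨s, hs⟩ : ∃ s : ℝ, s = 1 / 2 - m * κ - a := ⟨_, rfl⟩
  have hs0 : 0 < s := by linarith
  have hs1 : s < 1 / 2 := by nlinarith
  obtain ⟨γ, hγd⟩ : ∃ γ : ℝ, γ = m * κ + a + s / 2 := ⟨_, rfl⟩
  have hγ : γ < 1 / 2 := by linarith
  obtain ⟨δ, hδd⟩ : ∃ δ : ℝ, δ = s / 10 := ⟨_, rfl⟩
  have hδ0 : 0 < δ := by rw [hδd]; positivity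
  have hδ1 : δ ≤ 1 / 20 := by rw [hδd]; linarith
  have hγ2 : m * (κ * (1 + δ) / (1 - δ) ^ 2) + a ≤ γ := by
    have h1 : (1 + δ) / (1 - δ) ^ 2 ≤ 1 + 5 * δ := by
      rw [div_le_iff₀ (by nlinarith)]
      nlinarith [mul_nonneg hδ0.le (show 0 ≤ 2 - 9 * δ by linarith), pow_pos hδ0 3]
    have h2 : m * (κ * (1 + δ) / (1 - δ) ^ 2) = (m * κ) * ((1 + δ) / (1 - δ) ^ 2) := by ring
    rw [h2]
    have h3 := mul_le_mul_of_nonneg_left h1 (show 0 ≤ m * κ by positivity)
    have h4 : m * κ * (5 * δ) ≤ 1 / 2 * (5 * δ) := mul_le_mul_of_nonneg_right hmκ.le (by positivity)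
    rw [hγd]
    nlinarith
  set η : ℝ := min (min (ε / 4) (1 / 50)) (δ * (1 - δ) / 2) with hη
  have hδδ : 0 < δ * (1 - δ) := mul_pos hδ0 (by linarith)
  have hη0 : 0 < η := lt_min (lt_min (by positivity) (by norm_num)) (by linarith)
  have hη1 : η ≤ 1 / 50 := (min_le_left _ _).trans (min_le_right _ _)
  have hηε : η ≤ ε / 4 := (min_le_left _ _).trans (min_le_left _ _)
  have hηδ : η < δ * (1 - δ) := lt_of_le_of_lt (min_le_right _ _) (by linarith)
  set k₀ : ℕ := max 2 ⌈2 / η⌉₊ with hk₀
  have hk₀2 : 2 ≤ k₀ := le_max_left _ _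
  have hk₀η : 2 / η ≤ (k₀ : ℝ) := (Nat.le_ceil _).trans (by exact_mod_cast le_max_right _ _)
  have hk0 : (2 : ℝ) ≤ k₀ := by exact_mod_cast hk₀2
  obtain ⟨d, hd⟩ : ∃ d : ℝ, d = (1 / 3 - κ) / k₀ := ⟨_, rfl⟩
  have hd0 : 0 < d := by rw [hd]; exact div_pos (by linarith) (by linarith)
  obtain ⟨C, hC, hdiv⟩ := Pool.Agent.H510R2.divisor_bound (d / 8) (by positivity)
  obtain ⟨C1, hC1, hms⟩ := mean_sq (show 0 < ε / 4 by positivity)
  have hFA := ev_FA (C := C) (C1 := C1) k₀ hκ hκ1 hε hη0 hη1 hd0
  have hF1 := ev_F1 m hηδ hc0 hγ ha0 ha3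
  have hev := ev_v (M := M8 δ) (A := (1 + c) / 2) (B := 1 / (2 - 1 / (m : ℝ) - 2 * κ) + ε)
    (by linarith) (by rw [hA]; linarith)
  have t1 : Tendsto (fun q : ℕ => Real.log (q : ℝ)) atTop atTop :=
    Real.tendsto_log_atTop.comp tendsto_natCast_atTop_atTop
  obtain ⟨q₀, hq₀⟩ := eventually_atTop.1 (t1.eventually (hFA.and (hF1.and hev)))
  refine ⟨q₀, fun q _ hqq hq H χ₀ hH => ?_⟩
  have hFact : Fact q.Prime := ⟨hq⟩
  have hqp : (0 : ℝ) < q := by exact_mod_cast hq.pos
  have hq1 : (1 : ℝ) ≤ q := by exact_mod_cast hq.one_lt.le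
  obtain ⟨FA, hF1, hev⟩ := hq₀ q hqq
  set x : ℝ := Real.log q with hx
  have hx1 : 1 ≤ x := FA.hx
  have hx0 : 0 < x := by linarith
  have hann : (Fintype.card (ann H) : ℝ) ≤ Real.exp (κ * x) := by
    rw [card_ann_index]
    refine hH.trans (le_of_eq ?_)
    rw [Real.rpow_def_of_pos hqp, mul_comm]
  have hannl : Real.log (Fintype.card (ann H)) ≤ κ * x := by
    have h1 : (0 : ℝ) < Fintype.card (ann H) := by
      have : 0 < Fintype.card (ann H) := Fintype.card_pos
      exact_mod_cast this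
    rw [Real.log_le_iff_le_exp h1]
    exact hann
  have hDl : Real.log ((⌊Real.exp (η * x)⌋₊ : ℕ) : ℝ) ≤ η * x := by
    have h1 : 1 ≤ Real.exp (η * x) := Real.one_le_exp (by positivity)
    have h2 : (0 : ℝ) < ((⌊Real.exp (η * x)⌋₊ : ℕ) : ℝ) := by
      exact_mod_cast Nat.floor_pos.2 h1
    rw [Real.log_le_iff_le_exp h2]
    exact Nat.floor_le (Real.exp_pos _).le
  set v : ℝ := Real.exp (-x ^ (1 / (2 - 1 / (m : ℝ) - 2 * κ) + ε)) with hv
  have hv0 : 0 ≤ v := (Real.exp_pos _).le
  have hcount : Real.exp (-(ε * x)) * Fintype.card H ≤ (((univ : Finset H).filter (fun ψ : H => v ≤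
        ‖DirichletCharacter.LFunction (χ₀ * (ψ : DirichletCharacter ℂ q)) (1 / 2)‖)).card : ℝ) := by
    obtain ⟨B, hB, hs, hsB⟩ := short_one (ann H) hF1 hκ hδ0 (by linarith) hc0 ha0.le hm hγ hγ2 hx
      hannl hDl
    refine main_count H χ₀ FA hx hκ hκ1 hη0 hη1 hηε hk₀2 hk₀η hd hC hC1 hdiv hann (hms q H χ₀)
      B hB hs v hv0 ?_
    calc v * Real.exp (∑ p ∈ B, (p : ℝ) ^ (-(1 / 2 : ℝ))) ≤
          v * Real.exp (M8 δ * x ^ ((1 + c) / 2)) :=
          mul_le_mul_of_nonneg_left (Real.exp_le_exp.2 hsB) hv0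
      _ ≤ Real.exp (-2) := by
          rw [hv, ← Real.exp_add, Real.exp_le_exp]
          linarith
      _ ≤ 1 / 4 := by
          have h5 : (2 : ℝ) ≤ Real.exp 1 := by have := Real.add_one_le_exp (1 : ℝ); linarith
          have h6 : Real.exp 2 = Real.exp 1 ^ 2 := by rw [← Real.exp_nat_mul]; norm_num
          rw [Real.exp_neg, h6, one_div]
          apply inv_anti₀ (by norm_num)
          nlinarith
  have h1 : (q : ℝ) ^ (-ε) = Real.exp (-(ε * x)) := by
    rw [Real.rpow_def_of_pos hqp]
    congr 1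
    ring
  rw [h1, Nat.card_eq_fintype_card]
  refine hcount.trans ?_
  set S : Set (DirichletCharacter ℂ q) := {ψ : DirichletCharacter ℂ q | ψ ∈ H ∧
    v ≤ ‖DirichletCharacter.LFunction (χ₀ * ψ) (1 / 2)‖} with hS
  set A : Finset H := univ.filter (fun ψ : H =>
    v ≤ ‖DirichletCharacter.LFunction (χ₀ * (ψ : DirichletCharacter ℂ q)) (1 / 2)‖) with hA
  have hcard : A.card ≤ S.ncard := by
    have h1 : (A.map ⟨Subtype.val, Subtype.val_injective⟩ : Finset (DirichletCharacter ℂ q)).card =
        A.card := card_map _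
    rw [← h1, ← Set.ncard_coe_finset]
    apply Set.ncard_le_ncard _ (Set.toFinite _)
    intro ψ hψ
    rw [mem_coe, Finset.mem_map] at hψ
    obtain ⟨φ, hφ, rfl⟩ := hψ
    rw [hA, mem_filter] at hφ
    exact ⟨φ.2, hφ.2⟩
  exact_mod_cast hcard

end Pool.Agent.Results.MP_3e6494_nt.PowerIndexCosets
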